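import Mathlib

namespace H503R3.QCI

open MvPolynomial

universe u

section field

variable {F : Type u} [Field F]

lemma hom_identity {K : Type*} [Field K] {μ : Type} [Fintype μ] (g : F →+* K)
    (H : MvPolynomial μ F) (n : μ → K) (δ : K) (hδ : δ ≠ 0) :
    δ ^ H.totalDegree * eval₂ g (fun m => n m / δ) H =
      ∑ d ∈ H.support, g (H.coeff d) * ((∏ i, n i ^ d i) * δ ^ (H.totalDegree - ∑ i, d i)) := by
  rw [eval₂_eq', Finset.mul_sum]
  refine Finset.sum_congr rfl fun d hd => ?_
  have hdeg : ∑ i, d i ≤ H.totalDegree := by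
    have := MvPolynomial.le_totalDegree hd
    rwa [Finsupp.sum_fintype _ _ (fun _ => rfl)] at this
  have h1 : δ ^ H.totalDegree = δ ^ (∑ i, d i) * δ ^ (H.totalDegree - ∑ i, d i) := by
    rw [← pow_add, Nat.add_sub_cancel' hdeg]
  have h2 : δ ^ (∑ i, d i) * ∏ i, (n i / δ) ^ d i = ∏ i, n i ^ d i := by
    rw [← Finset.prod_pow_eq_pow_sum, ← Finset.prod_mul_distrib]
    refine Finset.prod_congr rfl fun i _ => ?_
    rw [div_pow, mul_div_cancel₀]
    exact pow_ne_zero _ hδ
  calc δ ^ H.totalDegree * (g (coeff d H) * ∏ i, (n i / δ) ^ d i)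
      = g (coeff d H) * ((δ ^ (∑ i, d i) * ∏ i, (n i / δ) ^ d i) *
          δ ^ (H.totalDegree - ∑ i, d i)) := by rw [h1]; ring
    _ = _ := by rw [h2]

/-- More rational functions than variables satisfy an algebraic relation, also after
specialisation. -/
theorem exists_dep {ι μ : Type} [Fintype ι] [Fintype μ] (h : Fintype.card ι < Fintype.card μ)
    (D : MvPolynomial ι F) (hD : D ≠ 0) (N : μ → MvPolynomial ι F) :
    ∃ H : MvPolynomial μ F, H ≠ 0 ∧ ∀ p : ι → F, eval p D ≠ 0 →
      eval (fun m => eval p (N m) / eval p D) H = 0 := by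
  classical
  let K := FractionRing (MvPolynomial ι F)
  let θ : μ → K := fun m => algebraMap (MvPolynomial ι F) K (N m) /
    algebraMap (MvPolynomial ι F) K D
  have hDK : algebraMap (MvPolynomial ι F) K D ≠ 0 := by
    intro h0
    exact hD ((IsFractionRing.injective (MvPolynomial ι F) K) (by rw [h0, map_zero]))
  have htr : Algebra.trdeg F K = Cardinal.lift.{u} (Cardinal.mk ι) := by
    have h1 := _root_.trdeg_add_eq F (MvPolynomial ι F) (A := K)
    have h2 : Algebra.trdeg (MvPolynomial ι F) K = 0 := by
      have : Algebra.IsAlgebraic (MvPolynomial ι F) K :=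
        IsLocalization.isAlgebraic K (nonZeroDivisors (MvPolynomial ι F))
      exact trdeg_eq_zero
    rw [h2, add_zero, MvPolynomial.trdeg_of_isDomain] at h1
    exact h1.symm
  have hnot : ¬ AlgebraicIndependent F θ := by
    intro hai
    have h1 := hai.lift_cardinalMk_le_trdeg
    rw [htr] at h1
    simp only [Cardinal.mk_fintype, Cardinal.lift_natCast, Nat.cast_le] at h1
    omega
  rw [algebraicIndependent_iff] at hnot
  push Not at hnot
  obtain ⟨H, hH0, hH⟩ := hnot
  refine ⟨H, hH, fun p hp => ?_⟩
  have e1 := hom_identity (algebraMap F K) H (fun m => algebraMap (MvPolynomial ι F) K (N m))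
    (algebraMap (MvPolynomial ι F) K D) hDK
  have e0 : eval₂ (algebraMap F K) (fun m => algebraMap (MvPolynomial ι F) K (N m) /
      algebraMap (MvPolynomial ι F) K D) H = 0 := hH0
  rw [e0, mul_zero] at e1
  let G : MvPolynomial ι F := ∑ d ∈ H.support, C (H.coeff d) *
    ((∏ i, N i ^ d i) * D ^ (H.totalDegree - ∑ i, d i))
  have hG : G = 0 := by
    apply IsFractionRing.injective (MvPolynomial ι F) K
    rw [map_zero, e1]
    simp only [G, map_sum, map_mul, map_prod, map_pow]
    refine Finset.sum_congr rfl fun d _ => ?_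
    congr 1
  have e2 := hom_identity (RingHom.id F) H (fun m => eval p (N m)) (eval p D) hp
  have hG2 : eval p G = 0 := by rw [hG, map_zero]
  simp only [G, map_sum, map_mul, map_prod, map_pow, eval_C] at hG2
  simp only [RingHom.id_apply] at e2
  rw [hG2] at e2
  have e3 := (mul_eq_zero.mp e2).resolve_left (pow_ne_zero _ hp)
  exact e3

/-- A matrix with linearly independent columns has an invertible square submatrix. -/
theorem exists_rows {ρ c : Type} [Fintype ρ] [Fintype c] [DecidableEq c] (A : Matrix ρ c F)
    (h : LinearIndependent F (fun j : c => (fun i => A i j : ρ → F))) :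
    ∃ R : c → ρ, (A.submatrix R id).det ≠ 0 := by
  classical
  have hrk : A.rank = Fintype.card c := by
    rw [Matrix.rank_eq_finrank_span_cols]
    have := linearIndependent_iff_card_eq_finrank_span.mp h
    rw [this]
    rfl
  rw [Matrix.rank_eq_finrank_span_row] at hrk
  obtain ⟨f, hf1, -, hf3⟩ := Submodule.exists_fun_fin_finrank_span_eq F (Set.range A.row)
  have e : c ≃ Fin (Module.finrank F (Submodule.span F (Set.range A.row))) :=
    Fintype.equivOfCardEq (by rw [hrk]; simp)
  choose R hR using fun j : c => hf1 (e j)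
  refine ⟨R, ?_⟩
  have : LinearIndependent F (fun j : c => (A.submatrix R id).row j) := by
    have h2 := hf3.comp e e.injective
    have h3 : (fun j : c => (A.submatrix R id).row j) = f ∘ e := by
      ext j k
      simp only [Function.comp]
      rw [← hR j]
      rfl
    rw [h3]
    exact h2
  have h3 := (Matrix.linearIndependent_rows_iff_isUnit).mp this
  exact ((Matrix.isUnit_iff_isUnit_det _).mp h3).ne_zero

/-- Dimension count for solutions of linear systems depending polynomially on parameters. -/
theorem exists_bad {ι κ : Type} {c₁ c₂ J : Type} [Fintype ι] [Fintype c₁] [Fintype c₂]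
    [Fintype J] (Q : c₁ ⊕ c₂ → MvPolynomial κ (MvPolynomial ι F))
    (b : J → MvPolynomial κ (MvPolynomial ι F))
    (hcard : Fintype.card ι < Fintype.card J * Fintype.card c₁) :
    ∃ g : J → c₁ → F, ∀ p : ι → F,
      LinearIndependent F (fun c => map (eval p) (Q c)) →
      (∀ j, ∃ w : c₂ → F, ∑ c, g j c • map (eval p) (Q (Sum.inl c)) +
        ∑ c, w c • map (eval p) (Q (Sum.inr c)) = map (eval p) (b j)) → False := by
  classical
  rcases finite_or_infinite F with hfin | hinf
  · -- counting
    by_contra hcon
    simp only [not_exists, not_forall] at hcon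
    choose p hli hsol _ using hcon
    have := Fintype.ofFinite F
    have hinj : Function.Injective p := by
      intro g g' hgg
      have h1 := hli g
      funext j c
      obtain ⟨w, hw⟩ := hsol g j
      obtain ⟨w', hw'⟩ := hsol g' j
      rw [← hgg] at hw'
      have h2 : ∑ x, (Sum.elim (g j - g' j) (w - w') x) • map (eval (p g)) (Q x) = 0 := by
        rw [Fintype.sum_sum_type]
        simp only [Sum.elim_inl, Sum.elim_inr, Pi.sub_apply, sub_smul, Finset.sum_sub_distrib]
        linear_combination hw - hw'
      have h3 := Fintype.linearIndependent_iff.mp h1 _ h2 (Sum.inl c)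
      simp only [Sum.elim_inl, Pi.sub_apply] at h3
      exact sub_eq_zero.mp h3
    have h4 := Fintype.card_le_of_injective p hinj
    simp only [Fintype.card_fun] at h4
    rw [← pow_mul] at h4
    have h5 := (Nat.pow_le_pow_iff_right (Fintype.one_lt_card (α := F))).mp h4
    rw [mul_comm] at h5
    omega
  · -- infinite field
    let s : Finset (κ →₀ ℕ) := (Finset.univ.biUnion fun c => (Q c).support) ∪
      (Finset.univ.biUnion fun j => (b j).support)
    have hsQ : ∀ c (m : κ →₀ ℕ), m ∉ s → coeff m (Q c) = 0 := by
      intro c m hm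
      by_contra h0
      exact hm (Finset.mem_union_left _ (Finset.mem_biUnion.mpr
        ⟨c, Finset.mem_univ _, mem_support_iff.mpr h0⟩))
    let A : Matrix s (c₁ ⊕ c₂) (MvPolynomial ι F) := fun m c => coeff m.1 (Q c)
    let Dt : ((c₁ ⊕ c₂) → s) → MvPolynomial ι F := fun R => (A.submatrix R id).det
    let Nt : ((c₁ ⊕ c₂) → s) → J × c₁ → MvPolynomial ι F := fun R jc =>
      ((A.submatrix R id).adjugate.mulVec (fun x => coeff (R x).1 (b jc.1))) (Sum.inl jc.2)
    have hdep : ∀ R : (c₁ ⊕ c₂) → s, ∃ H : MvPolynomial (J × c₁) F, H ≠ 0 ∧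
        (Dt R ≠ 0 → ∀ p : ι → F, eval p (Dt R) ≠ 0 →
          eval (fun m => eval p (Nt R m) / eval p (Dt R)) H = 0) := by
      intro R
      by_cases hR : Dt R = 0
      · exact ⟨1, one_ne_zero, fun h => absurd hR h⟩
      · obtain ⟨H, h1, h2⟩ := exists_dep (ι := ι) (μ := J × c₁)
          (by rw [Fintype.card_prod]; exact hcard) (Dt R) hR (Nt R)
        exact ⟨H, h1, fun _ => h2⟩
    choose H hH0 hH using hdep
    have hprod : (∏ R, H R) ≠ 0 := Finset.prod_ne_zero_iff.mpr fun R _ => hH0 R
    obtain ⟨g, hg⟩ : ∃ g : J × c₁ → F, eval g (∏ R, H R) ≠ 0 := by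
      by_contra hcon
      push Not at hcon
      exact hprod (MvPolynomial.funext fun x => by rw [hcon x, map_zero])
    refine ⟨fun j c => g (j, c), fun p hli hsol => ?_⟩
    -- the matrix at `p`
    let Ap : Matrix s (c₁ ⊕ c₂) F := fun m c => eval p (A m c)
    have hAp : LinearIndependent F (fun j => (fun i => Ap i j : s → F)) := by
      rw [Fintype.linearIndependent_iff]
      intro w hw
      apply Fintype.linearIndependent_iff.mp hli
      ext m
      rw [coeff_sum]
      simp only [coeff_smul, coeff_map, coeff_zero, smul_eq_mul]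
      by_cases hm : m ∈ s
      · have := congrFun hw ⟨m, hm⟩
        simpa [Ap, A] using this
      · exact Finset.sum_eq_zero fun c _ => by rw [hsQ c m hm, map_zero, mul_zero]
    obtain ⟨R, hR⟩ := exists_rows Ap hAp
    have hsub : Ap.submatrix R id = (A.submatrix R id).map (eval p) := rfl
    have hdet : (Ap.submatrix R id).det = eval p (Dt R) := by
      rw [hsub]
      exact ((eval p).map_det _).symm
    rw [hdet] at hR
    have hDR : Dt R ≠ 0 := by
      intro h0; rw [h0, map_zero] at hR; exact hR rfl
    have hz := hH R hDR p hR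
    have hval : (fun m => eval p (Nt R m) / eval p (Dt R)) = g := by
      funext jc
      obtain ⟨j, c⟩ := jc
      obtain ⟨w, hw⟩ := hsol j
      let v : c₁ ⊕ c₂ → F := Sum.elim (fun c => g (j, c)) w
      have hv : (Ap.submatrix R id).mulVec v = fun x => eval p (coeff (R x).1 (b j)) := by
        funext x
        have := congrArg (coeff (R x).1) hw
        simp only [coeff_add, coeff_sum, coeff_smul, coeff_map, smul_eq_mul] at this
        rw [← this]
        simp only [Matrix.mulVec, dotProduct, Matrix.submatrix_apply, id, Fintype.sum_sum_type,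
          v, Sum.elim_inl, Sum.elim_inr, Ap, A]
        congr 1 <;> exact Finset.sum_congr rfl fun _ _ => mul_comm _ _
      have h1 : (Ap.submatrix R id).adjugate.mulVec ((Ap.submatrix R id).mulVec v) =
          (Ap.submatrix R id).det • v := by
        rw [Matrix.mulVec_mulVec, Matrix.adjugate_mul, Matrix.smul_mulVec, Matrix.one_mulVec]
      rw [hv, hdet] at h1
      have h2 := congrFun h1 (Sum.inl c)
      simp only [Pi.smul_apply, smul_eq_mul, v, Sum.elim_inl] at h2
      have h3 : eval p (Nt R (j, c)) = eval p (Dt R) * g (j, c) := by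
        rw [← h2, hsub]
        simp only [Nt, Matrix.mulVec, dotProduct, map_sum, map_mul]
        refine Finset.sum_congr rfl fun x _ => ?_
        congr 1
        have := (eval p).map_adjugate (A.submatrix R id)
        have h4 := congrFun (congrFun this (Sum.inl c)) x
        simpa [RingHom.mapMatrix_apply, Matrix.map_apply] using h4
      rw [h3, mul_div_cancel_left₀ _ hR]
    rw [hval] at hz
    rw [map_prod] at hg
    exact hg (Finset.prod_eq_zero (Finset.mem_univ R) hz)

end field

end H503R3.QCI
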