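import Pool.Agent.H503R3.QCI.Hilb

namespace H503R3.QCI

open MvPolynomial

universe u

variable {F : Type u} [Field F] {n N : ℕ}

lemma coeff_zero_of_mem {J : Ideal (MvPolynomial (Fin N) F)} (hJ : Homog J) (hJ1 : J ≠ ⊤)
    {p : MvPolynomial (Fin N) F} (hp : p ∈ J) : coeff 0 p = 0 := by
  by_contra hc
  have h1 := hJ p hp 0
  rw [homogeneousComponent_zero] at h1
  apply hJ1
  rw [Ideal.eq_top_iff_one]
  have h2 := Ideal.mul_mem_left J (C (coeff 0 p)⁻¹) h1
  rwa [← C_mul, inv_mul_cancel₀ hc, C_1] at h2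

/-- Agreement to leading order `k`. -/
def Agree (k : ℕ) (a a' : MvPolynomial (Fin N) F) : Prop :=
  a ∈ idealOfVars (Fin N) F ^ k ∧ a' ∈ idealOfVars (Fin N) F ^ k ∧
    a - a' ∈ idealOfVars (Fin N) F ^ (k + 1)

lemma Agree.mul {k l : ℕ} {a a' b b' : MvPolynomial (Fin N) F} (h : Agree k a a')
    (h' : Agree l b b') : Agree (k + l) (a * b) (a' * b') := by
  refine ⟨?_, ?_, ?_⟩
  · rw [pow_add]; exact Ideal.mul_mem_mul h.1 h'.1
  · rw [pow_add]; exact Ideal.mul_mem_mul h.2.1 h'.2.1
  · have h1 : a * b - a' * b' = a * (b - b') + (a - a') * b' := by ring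
    rw [h1]
    refine add_mem ?_ ?_
    · rw [add_assoc, pow_add]; exact Ideal.mul_mem_mul h.1 h'.2.2
    · rw [show k + l + 1 = (k + 1) + l by ring, pow_add]
      exact Ideal.mul_mem_mul h.2.2 h'.2.1

lemma Agree.one : Agree (N := N) (F := F) 0 1 1 := by
  refine ⟨?_, ?_, ?_⟩
  · rw [pow_zero]; simp
  · rw [pow_zero]; simp
  · rw [sub_self]; exact zero_mem _

lemma Agree.pow {k : ℕ} {a a' : MvPolynomial (Fin N) F} (h : Agree k a a') (m : ℕ) :
    Agree (m * k) (a ^ m) (a' ^ m) := by
  induction m with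
  | zero => simpa using Agree.one
  | succ m ih => rw [pow_succ, pow_succ, Nat.succ_mul]; exact ih.mul h

lemma Agree.prod {ι : Type*} (s : Finset ι) {k : ι → ℕ} {a a' : ι → MvPolynomial (Fin N) F}
    (h : ∀ i ∈ s, Agree (k i) (a i) (a' i)) :
    Agree (∑ i ∈ s, k i) (∏ i ∈ s, a i) (∏ i ∈ s, a' i) := by
  classical
  induction s using Finset.induction_on with
  | empty => simpa using Agree.one
  | insert i s hi ih =>
    rw [Finset.prod_insert hi, Finset.prod_insert hi, Finset.sum_insert hi]
    exact (h i (Finset.mem_insert_self _ _)).mul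
      (ih fun j hj => h j (Finset.mem_insert_of_mem hj))

lemma aeval_sub_mem {b b₁ : Fin n → MvPolynomial (Fin N) F} (hb : ∀ i, Agree 1 (b i) (b₁ i))
    {p : MvPolynomial (Fin n) F} {k : ℕ} (hp : p.IsHomogeneous k) :
    aeval b p - aeval b₁ p ∈ idealOfVars (Fin N) F ^ (k + 1) := by
  rw [aeval_def, aeval_def, eval₂_eq', eval₂_eq', ← Finset.sum_sub_distrib]
  refine sum_mem fun m hm => ?_
  rw [← mul_sub]
  apply Ideal.mul_mem_left
  have h1 : Agree (∑ i, m i * 1) (∏ i, b i ^ m i) (∏ i, b₁ i ^ m i) :=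
    Agree.prod _ fun i _ => (hb i).pow (m i)
  have h2 : ∑ i, m i * 1 = k := by
    have h3 : m.degree = k := by
      by_contra hc
      exact (mem_support_iff.mp hm) (hp.coeff_eq_zero hc)
    rw [← h3, Finsupp.degree_eq_sum]
    simp
  rw [h2] at h1
  exact h1.2.2

lemma comp_zero_of_mem_pow {p : MvPolynomial (Fin N) F} {k j : ℕ}
    (hp : p ∈ idealOfVars (Fin N) F ^ k) (hj : j < k) : homogeneousComponent j p = 0 := by
  rw [mem_pow_idealOfVars_iff] at hp
  apply homogeneousComponent_eq_zero'
  intro d hd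
  have := hp d hd
  omega

lemma pow_le_of_socle {J : Ideal (MvPolynomial (Fin N) F)} {d : ℕ}
    (h : ∀ j, d < j → ∀ h : MvPolynomial (Fin N) F, h.IsHomogeneous j → h ∈ J) :
    idealOfVars (Fin N) F ^ (d + 1) ≤ J := by
  intro x hx
  rw [← sum_homogeneousComponent x]
  refine sum_mem fun i _ => ?_
  by_cases hi : i < d + 1
  · rw [comp_zero_of_mem_pow hx hi]; exact zero_mem _
  · exact h i (by omega) _ (homogeneousComponent_isHomogeneous i x)

lemma agree_one {b : MvPolynomial (Fin N) F} (h0 : coeff 0 b = 0) :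
    Agree 1 b (homogeneousComponent 1 b) := by
  refine ⟨?_, ?_, ?_⟩
  · rw [mem_pow_idealOfVars_iff]
    intro m hm
    by_contra hc
    have : m = 0 := (Finsupp.degree_eq_zero_iff m).mp (by omega)
    rw [this] at hm
    exact (mem_support_iff.mp hm) h0
  · rw [mem_pow_idealOfVars_iff]
    intro m hm
    have := mem_support_iff.mp hm
    rw [coeff_homogeneousComponent] at this
    by_contra hc
    rw [if_neg (by omega)] at this
    exact this rfl
  · rw [mem_pow_idealOfVars_iff]
    intro m hm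
    have := mem_support_iff.mp hm
    rw [coeff_sub, coeff_homogeneousComponent] at this
    by_contra hc
    have h2 : m.degree = 0 ∨ m.degree = 1 := by omega
    rcases h2 with h2 | h2
    · rw [(Finsupp.degree_eq_zero_iff m).mp h2, h0] at this
      simp at this
    · rw [if_pos h2, sub_self] at this
      exact this rfl

/-- An injective algebra map of graded complete intersections of equal socle degree may be
replaced by a graded one which is still nonzero on the socle. -/
theorem graded_reduction {I : Ideal (MvPolynomial (Fin n) F)}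
    {J : Ideal (MvPolynomial (Fin N) F)} (hJ : Homog J) {d : ℕ}
    (hI : IsSocleDegree I d) (hJd : IsSocleDegree J d)
    (φ : (MvPolynomial (Fin n) F ⧸ I) →ₐ[F] (MvPolynomial (Fin N) F ⧸ J))
    (hφ : Function.Injective φ) :
    ∃ b : Fin n → MvPolynomial (Fin N) F, (∀ i, (b i).IsHomogeneous 1) ∧
      (∀ (p : MvPolynomial (Fin n) F) (k : ℕ), p.IsHomogeneous k → p ∈ I → aeval b p ∈ J) ∧
      (∀ p : MvPolynomial (Fin n) F, p.IsHomogeneous d → p ∉ I → aeval b p ∉ J) := by
  have hJ1 : J ≠ ⊤ := by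
    obtain ⟨⟨h, _, hh⟩, _⟩ := hJd
    rintro rfl
    exact hh Submodule.mem_top
  choose b hb using fun i : Fin n => Ideal.Quotient.mk_surjective (φ (Ideal.Quotient.mk I (X i)))
  have key : ∀ p : MvPolynomial (Fin n) F, Ideal.Quotient.mk J (aeval b p) =
      φ (Ideal.Quotient.mk I p) := by
    intro p
    have : ((Ideal.Quotient.mkₐ F J).comp (aeval b)) = φ.comp (Ideal.Quotient.mkₐ F I) := by
      apply MvPolynomial.algHom_ext
      intro i
      simp only [AlgHom.comp_apply, aeval_X, Ideal.Quotient.mkₐ_eq_mk]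
      exact hb i
    exact DFunLike.congr_fun this p
  have hmem : ∀ p : MvPolynomial (Fin n) F, p ∈ I ↔ aeval b p ∈ J := by
    intro p
    rw [← Ideal.Quotient.eq_zero_iff_mem, ← Ideal.Quotient.eq_zero_iff_mem, key]
    constructor
    · intro h; rw [h, map_zero]
    · intro h; exact hφ (by rw [h, map_zero])
  have h0 : ∀ i, coeff 0 (b i) = 0 := by
    intro i
    have h1 : (X i : MvPolynomial (Fin n) F) ^ (d + 1) ∈ I :=
      hI.2 (d + 1) (Nat.lt_succ_self d) _ (isHomogeneous_X_pow i (d + 1))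
    rw [hmem, map_pow, aeval_X] at h1
    have h2 := coeff_zero_of_mem hJ hJ1 h1
    rw [← constantCoeff_eq, map_pow] at h2
    exact pow_eq_zero_iff (by omega) |>.mp h2
  refine ⟨fun i => homogeneousComponent 1 (b i), fun i =>
    homogeneousComponent_isHomogeneous _ _, ?_, ?_⟩
  · intro p k hp hpI
    have h1 := aeval_sub_mem (fun i => agree_one (h0 i)) hp
    have h2 := comp_zero_of_mem_pow h1 (Nat.lt_succ_self k)
    have h3 : (aeval (fun i => homogeneousComponent 1 (b i)) p :
        MvPolynomial (Fin N) F).IsHomogeneous k := by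
      have := hp.aeval (g := fun i => homogeneousComponent 1 (b i)) (n := 1)
        (fun i => homogeneousComponent_isHomogeneous _ _)
      rwa [one_mul] at this
    rw [map_sub, homogeneousComponent_eq_self h3, sub_eq_zero] at h2
    rw [← h2]
    exact hJ _ ((hmem p).mp hpI) k
  · intro p hp hpI hcon
    have h1 := aeval_sub_mem (fun i => agree_one (h0 i)) hp
    have h2 := pow_le_of_socle hJd.2 h1
    have h3 := add_mem h2 hcon
    rw [sub_add_cancel] at h3
    exact hpI ((hmem p).mpr h3)

end H503R3.QCI
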