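import Pool.Agent.H503R3.QCI.Tri
import Pool.Agent.H503R3.QCI.Graded
import Pool.Agent.H503R3.QCI.Dep

namespace H503R3.QCI

open MvPolynomial

universe u

variable {F : Type u} [Field F]

/-- three-element sets of indices -/
abbrev Tri3 (a : ℕ) : Type := {T : Finset (Fin a) // T.card = 3}

section family

variable {a b : ℕ} (g : Fin b → Tri3 a → F)

/-- The degrees `2, …, 2, 3, …, 3`. -/
def fdeg (a b : ℕ) : Fin (a + b) → ℕ := Fin.addCases (fun _ => 2) (fun _ => 3)

/-- The squarefree monomial of a three-element set in the first `a` variables. -/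
noncomputable def mon (a b : ℕ) (T : Finset (Fin a)) : MvPolynomial (Fin (a + b)) F :=
  ∏ t ∈ T, X (Fin.castAdd b t)

/-- The lower order terms of the family. -/
noncomputable def fG : Fin (a + b) → MvPolynomial (Fin (a + b)) F :=
  Fin.addCases (fun _ => 0) (fun j => ∑ T : Tri3 a, g j T • mon a b T.1)

/-- The family `x_i ^ 2`, `y_j ^ 3 - g_j(x)` with `g_j` squarefree cubic forms. -/
noncomputable def fam : Fin (a + b) → MvPolynomial (Fin (a + b)) F :=
  fun i => X i ^ fdeg a b i - fG g i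

lemma mon_homog (T : Finset (Fin a)) : (mon (F := F) a b T).IsHomogeneous T.card := by
  have := IsHomogeneous.prod T (fun t => (X (Fin.castAdd b t) : MvPolynomial (Fin (a + b)) F))
    (fun _ => 1) (fun t _ => isHomogeneous_X F _)
  simpa [mon] using this

lemma sum_mon_homog (w : Tri3 a → F) :
    (∑ T : Tri3 a, w T • mon a b T.1 : MvPolynomial (Fin (a + b)) F).IsHomogeneous 3 := by
  refine IsHomogeneous.sum _ _ _ fun T _ => ?_
  have h := mon_homog (F := F) (b := b) T.1
  rw [T.2] at h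
  exact (homogeneousSubmodule _ F 3).smul_mem _ h

lemma fam_homog (i : Fin (a + b)) : (fam g i).IsHomogeneous (fdeg a b i) := by
  unfold fam
  refine IsHomogeneous.sub (isHomogeneous_X_pow i _) ?_
  refine Fin.addCases (fun i => ?_) (fun j => ?_) i
  · simp only [fG, Fin.addCases_left]
    exact isHomogeneous_zero _ _ _
  · simp only [fG, Fin.addCases_right, fdeg]
    exact sum_mon_homog (g j)

lemma fG_supported (i : Fin (a + b)) : fG g i ∈ supported F {j | j < i} := by
  refine Fin.addCases (fun i => ?_) (fun j => ?_) i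
  · simp only [fG, Fin.addCases_left]
    exact zero_mem _
  · simp only [fG, Fin.addCases_right]
    refine sum_mem fun T _ => ?_
    refine Subalgebra.smul_mem _ ?_ _
    refine prod_mem fun t _ => ?_
    rw [X_mem_supported]
    change Fin.castAdd b t < Fin.natAdd a j
    rw [Fin.lt_def]
    simp only [Fin.val_castAdd, Fin.val_natAdd]
    omega

lemma fdeg_pos (i : Fin (a + b)) : 1 ≤ fdeg a b i := by
  refine Fin.addCases (fun i => ?_) (fun j => ?_) i <;> simp [fdeg]

lemma fam_reg : Reg (fam g) := tri_reg (fun _ => rfl) fdeg_pos (fG_supported g)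

lemma fam_socle_notMem :
    ∏ i, (X i : MvPolynomial (Fin (a + b)) F) ^ (fdeg a b i - 1) ∉
      Ideal.span (Set.range (fam g)) :=
  tri_socle (fun _ => rfl) fdeg_pos (fG_supported g)

lemma sum_fdeg : ∑ i, (fdeg a b i - 1) = a + 2 * b := by
  rw [Fin.sum_univ_add]
  simp [fdeg, mul_comm]

lemma fam_socle : IsSocleDegree (Ideal.span (Set.range (fam g))) (a + 2 * b) := by
  rw [← sum_fdeg]
  exact isSocleDegree_ci (fam g) (fdeg a b) (fam_homog g) fdeg_pos (fam_reg g)

lemma socle_eq : ∏ i, (X i : MvPolynomial (Fin (a + b)) F) ^ (fdeg a b i - 1) =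
    mon a b Finset.univ * ∏ j : Fin b, X (Fin.natAdd a j) ^ 2 := by
  rw [Fin.prod_univ_add]
  simp [fdeg, mon]

lemma socle_homog : (∏ i, (X i : MvPolynomial (Fin (a + b)) F) ^ (fdeg a b i - 1)).IsHomogeneous
    (a + 2 * b) := by
  rw [← sum_fdeg]
  exact IsHomogeneous.prod _ _ _ fun i _ => isHomogeneous_X_pow i _

lemma sq_mem (t : Fin a) : (X (Fin.castAdd b t) : MvPolynomial (Fin (a + b)) F) ^ 2 ∈
    Ideal.span (Set.range (fam g)) := by
  have : fam g (Fin.castAdd b t) = X (Fin.castAdd b t) ^ 2 := by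
    simp [fam, fdeg, fG]
  rw [← this]
  exact Ideal.subset_span ⟨_, rfl⟩

lemma cross_mem {T T₀ : Tri3 a} (h : T ≠ T₀) :
    mon a b T.1 * (mon a b T₀.1ᶜ * ∏ j : Fin b, X (Fin.natAdd a j) ^ 2) ∈
      Ideal.span (Set.range (fam g)) := by
  obtain ⟨t, ht, ht0⟩ : ∃ t ∈ T.1, t ∉ T₀.1 := by
    by_contra hcon
    push Not at hcon
    exact h (Subtype.ext (Finset.eq_of_subset_of_card_le hcon (by rw [T.2, T₀.2])))
  have h1 : mon (F := F) a b T.1 = X (Fin.castAdd b t) * mon a b (T.1.erase t) :=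
    (Finset.mul_prod_erase T.1 _ ht).symm
  have h2 : mon (F := F) a b T₀.1ᶜ = X (Fin.castAdd b t) * mon a b (T₀.1ᶜ.erase t) :=
    (Finset.mul_prod_erase T₀.1ᶜ _ (Finset.mem_compl.mpr ht0)).symm
  rw [h1, h2]
  have h3 : (X (Fin.castAdd b t) * mon a b (T.1.erase t) *
      (X (Fin.castAdd b t) * mon a b (T₀.1ᶜ.erase t) * ∏ j : Fin b, X (Fin.natAdd a j) ^ 2) :
        MvPolynomial (Fin (a + b)) F) =
      (mon a b (T.1.erase t) * mon a b (T₀.1ᶜ.erase t) * ∏ j : Fin b, X (Fin.natAdd a j) ^ 2) *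
        X (Fin.castAdd b t) ^ 2 := by ring
  rw [h3]
  exact Ideal.mul_mem_left _ _ (sq_mem g t)

lemma self_eq (T₀ : Tri3 a) :
    mon a b T₀.1 * (mon a b T₀.1ᶜ * ∏ j : Fin b, X (Fin.natAdd a j) ^ 2) =
      (∏ i, (X i : MvPolynomial (Fin (a + b)) F) ^ (fdeg a b i - 1)) := by
  rw [socle_eq, ← mul_assoc]
  congr 1
  exact Finset.prod_mul_prod_compl T₀.1 _

/-- The squarefree cubic forms embed. -/
lemma cubic_inj {N : ℕ} {J : Ideal (MvPolynomial (Fin N) F)}
    {bb : Fin (a + b) → MvPolynomial (Fin N) F}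
    (h1 : ∀ (p : MvPolynomial (Fin (a + b)) F) (k : ℕ), p.IsHomogeneous k →
      p ∈ Ideal.span (Set.range (fam g)) → aeval bb p ∈ J)
    (h2 : ∀ p : MvPolynomial (Fin (a + b)) F, p.IsHomogeneous (a + 2 * b) →
      p ∉ Ideal.span (Set.range (fam g)) → aeval bb p ∉ J)
    (w : Tri3 a → F) (hw : aeval bb (∑ T : Tri3 a, w T • mon (F := F) a b T.1) ∈ J) :
    ∀ T, w T = 0 := by
  classical
  intro T₀
  by_contra hne
  have h3 := h2 _ socle_homog (fam_socle_notMem g)
  apply h3
  set v : MvPolynomial (Fin (a + b)) F :=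
    mon a b T₀.1ᶜ * ∏ j : Fin b, X (Fin.natAdd a j) ^ 2 with hv
  have h4 := Ideal.mul_mem_right (aeval bb v) _ hw
  rw [← map_mul, Finset.sum_mul, ← Finset.add_sum_erase _ _ (Finset.mem_univ T₀), map_add,
    map_sum] at h4
  have h5 : ∑ T ∈ Finset.univ.erase T₀, aeval bb (w T • mon (F := F) a b T.1 * v) ∈ J := by
    refine sum_mem fun T hT => ?_
    rw [smul_mul_assoc, map_smul, Algebra.smul_def]
    apply Ideal.mul_mem_left
    have hvh : v.IsHomogeneous ((T₀.1ᶜ).card + ∑ _j : Fin b, 2) :=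
      (mon_homog _).mul (IsHomogeneous.prod _ _ _ fun i _ => isHomogeneous_X_pow _ 2)
    exact h1 _ _ ((mon_homog T.1).mul hvh) (cross_mem g (Finset.ne_of_mem_erase hT))
  have h6 : aeval bb (w T₀ • mon (F := F) a b T₀.1 * v) ∈ J := by
    have := sub_mem h4 h5
    rwa [add_sub_cancel_right] at this
  rw [smul_mul_assoc, map_smul, hv, self_eq, Algebra.smul_def] at h6
  have h7 := Ideal.mul_mem_left J (algebraMap F _ (w T₀)⁻¹) h6
  rwa [← mul_assoc, ← map_mul, inv_mul_cancel₀ hne, map_one, one_mul] at h7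

end family

section generic

variable {N : ℕ}

lemma linear_form (p : MvPolynomial (Fin N) F) (hp : p.IsHomogeneous 1) :
    ∃ c : Fin N → F, p = ∑ j, C (c j) * X j := by
  have h : p ∈ homogeneousSubmodule (Fin N) F 1 := hp
  rw [homogeneousSubmodule_one_eq_span_X] at h
  obtain ⟨c, hc⟩ := (Submodule.mem_span_range_iff_exists_fun F).mp h
  exact ⟨c, by rw [← hc]; simp [smul_eq_C_mul]⟩

lemma quadratic_form (p : MvPolynomial (Fin N) F) (hp : p.IsHomogeneous 2) :
    ∃ c : Fin N → Fin N → F, p = ∑ i, ∑ j, C (c i j) * (X i * X j) := by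
  have h : p ∈ homogeneousSubmodule (Fin N) F 2 := hp
  rw [← homogeneousSubmodule_one_pow, pow_two] at h
  clear hp
  induction h using Submodule.mul_induction_on' with
  | mem_mul_mem x hx y hy =>
    obtain ⟨c, rfl⟩ := linear_form x hx
    obtain ⟨c', rfl⟩ := linear_form y hy
    refine ⟨fun i j => c i * c' j, ?_⟩
    rw [Finset.sum_mul_sum]
    refine Finset.sum_congr rfl fun i _ => Finset.sum_congr rfl fun j _ => ?_
    rw [C_mul]; ring
  | add x hx y hy ihx ihy =>
    obtain ⟨c, rfl⟩ := ihx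
    obtain ⟨c', rfl⟩ := ihy
    refine ⟨fun i j => c i j + c' i j, ?_⟩
    rw [← Finset.sum_add_distrib]
    refine Finset.sum_congr rfl fun i _ => ?_
    rw [← Finset.sum_add_distrib]
    refine Finset.sum_congr rfl fun j _ => ?_
    rw [C_add]; ring

/-- parameters: coefficients of `N` quadrics and of `n` linear forms in `N` variables -/
abbrev Par (n N : ℕ) : Type := (Fin N × Fin N × Fin N) ⊕ (Fin n × Fin N)

/-- generic quadrics -/
noncomputable def gq (F : Type u) [Field F] (n N : ℕ) (k : Fin N) :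
    MvPolynomial (Fin N) (MvPolynomial (Par n N) F) :=
  ∑ i, ∑ j, C (X (Sum.inl (k, i, j))) * (X i * X j)

/-- generic linear forms -/
noncomputable def gl (F : Type u) [Field F] (n N : ℕ) (i : Fin n) :
    MvPolynomial (Fin N) (MvPolynomial (Par n N) F) :=
  ∑ j, C (X (Sum.inr (i, j))) * X j

lemma map_gq {n : ℕ} (p : Par n N → F) (k : Fin N) :
    map (eval p) (gq F n N k) = ∑ i, ∑ j, C (p (Sum.inl (k, i, j))) * (X i * X j) := by
  simp [gq]

lemma map_gl {n : ℕ} (p : Par n N → F) (i : Fin n) :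
    map (eval p) (gl F n N i) = ∑ j, C (p (Sum.inr (i, j))) * X j := by
  simp [gl]

/-- every system of quadrics and linear forms is a specialisation of the generic one -/
lemma exists_par {n : ℕ} (q : Fin N → MvPolynomial (Fin N) F) (hq : ∀ k, (q k).IsHomogeneous 2)
    (bb : Fin n → MvPolynomial (Fin N) F) (hb : ∀ i, (bb i).IsHomogeneous 1) :
    ∃ p : Par n N → F, (∀ k, map (eval p) (gq F n N k) = q k) ∧
      ∀ i, map (eval p) (gl F n N i) = bb i := by
  choose c hc using fun k => quadratic_form (q k) (hq k)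
  choose c' hc' using fun i => linear_form (bb i) (hb i)
  refine ⟨Sum.elim (fun t => c t.1 t.2.1 t.2.2) (fun t => c' t.1 t.2), ?_, ?_⟩
  · intro k
    rw [map_gq, hc k]
    rfl
  · intro i
    rw [map_gl, hc' i]
    rfl

/-- cubic elements of an ideal generated by quadrics -/
lemma cubic_mem {q : Fin N → MvPolynomial (Fin N) F} (hq : ∀ k, (q k).IsHomogeneous 2)
    {h : MvPolynomial (Fin N) F} (hh : h.IsHomogeneous 3) (hJ : h ∈ Ideal.span (Set.range q)) :
    ∃ w : Fin N × Fin N → F, h = ∑ kl, w kl • (X kl.2 * q kl.1) := by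
  obtain ⟨c, hc⟩ := Ideal.mem_span_range_iff_exists_fun.mp hJ
  have h1 : h = ∑ k, homogeneousComponent 1 (c k) * q k := by
    have h2 := homogeneousComponent_eq_self hh
    rw [← hc, map_sum] at h2
    conv_lhs => rw [← hc, ← h2]
    refine Finset.sum_congr rfl fun k _ => ?_
    rw [mul_comm, show (3 : ℕ) = 2 + 1 from rfl, comp_mul (hq k), mul_comm]
  choose w hw using fun k => linear_form (homogeneousComponent 1 (c k))
    (homogeneousComponent_isHomogeneous _ _)
  refine ⟨fun kl => w kl.1 kl.2, ?_⟩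
  rw [h1, Fintype.sum_prod_type]
  refine Finset.sum_congr rfl fun k _ => ?_
  rw [hw k, Finset.sum_mul]
  refine Finset.sum_congr rfl fun l _ => ?_
  rw [smul_eq_C_mul, mul_assoc]

end generic

/-- The main dimension count. -/
theorem main (a b : ℕ)
    (hcard : (a + 2 * b) ^ 3 + (a + b) * (a + 2 * b) < b * a.choose 3) :
    ∃ g : Fin b → Tri3 a → F, ∀ (q : Fin (a + 2 * b) → MvPolynomial (Fin (a + 2 * b)) F),
      (∀ k, (q k).IsHomogeneous 2) → Reg q →
      IsSocleDegree (Ideal.span (Set.range q)) (a + 2 * b) →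
      ∀ φ : (MvPolynomial (Fin (a + b)) F ⧸ Ideal.span (Set.range (fam g))) →ₐ[F]
        (MvPolynomial (Fin (a + 2 * b)) F ⧸ Ideal.span (Set.range q)),
      ¬ Function.Injective φ := by
  classical
  set N := a + 2 * b with hN
  have hc : Fintype.card (Par (a + b) N) < Fintype.card (Fin b) * Fintype.card (Tri3 a) := by
    rw [Fintype.card_sum, Fintype.card_prod, Fintype.card_prod, Fintype.card_prod,
      Fintype.card_finset_len, Fintype.card_fin, Fintype.card_fin, Fintype.card_fin,
      Fintype.card_fin]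
    calc N * (N * N) + (a + b) * N = N ^ 3 + (a + b) * N := by ring
      _ < _ := hcard
  obtain ⟨g, hg⟩ := exists_bad (F := F) (ι := Par (a + b) N) (κ := Fin N) (c₁ := Tri3 a)
    (c₂ := Fin N × Fin N) (J := Fin b)
    (Sum.elim (fun T => ∏ t ∈ T.1, gl F (a + b) N (Fin.castAdd b t)) (fun kl => X kl.2 * gq F (a + b) N kl.1))
    (fun j => gl F (a + b) N (Fin.natAdd a j) ^ 3) hc
  refine ⟨g, fun q hq hreg hsoc φ hφ => ?_⟩
  obtain ⟨bb, hb1, hb2, hb3⟩ := graded_reduction
    (homog_span (by rintro _ ⟨k, rfl⟩; exact ⟨2, hq k⟩)) (fam_socle g) hsoc φ hφ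
  obtain ⟨p, hp1, hp2⟩ := exists_par q hq bb hb1
  have hmon : ∀ T : Tri3 a, map (eval p) (∏ t ∈ T.1, gl F (a + b) N (Fin.castAdd b t)) =
      aeval bb (mon (F := F) a b T.1) := by
    intro T
    rw [map_prod, mon, map_prod]
    refine Finset.prod_congr rfl fun t _ => ?_
    rw [hp2, aeval_X]
  apply hg p
  · -- linear independence
    rw [Fintype.linearIndependent_iff]
    intro w hw
    rw [Fintype.sum_sum_type] at hw
    simp only [Sum.elim_inl, Sum.elim_inr, map_mul, map_X, hp1, hmon] at hw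
    have h1 : aeval bb (∑ T : Tri3 a, w (Sum.inl T) • mon (F := F) a b T.1) =
        ∑ T : Tri3 a, w (Sum.inl T) • aeval bb (mon (F := F) a b T.1) := by
      rw [map_sum]
      simp only [map_smul]
    have h2 : ∀ T, w (Sum.inl T) = 0 := by
      apply cubic_inj g hb2 hb3
      rw [h1, eq_neg_of_add_eq_zero_left hw]
      refine neg_mem (sum_mem fun kl _ => ?_)
      rw [smul_eq_C_mul]
      exact Ideal.mul_mem_left _ _ (Ideal.mul_mem_left _ _ (Ideal.subset_span ⟨_, rfl⟩))
    simp only [h2, zero_smul, Finset.sum_const_zero, zero_add] at hw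
    rw [Fintype.sum_prod_type] at hw
    have h3 : ∑ k, (∑ l, C (w (Sum.inr (k, l))) * X l) * q k = 0 := by
      rw [← hw]
      refine Finset.sum_congr rfl fun k _ => ?_
      rw [Finset.sum_mul]
      refine Finset.sum_congr rfl fun l _ => ?_
      rw [smul_eq_C_mul, mul_assoc]
    have h4 := no_linear_syz q hq hreg (fun k => ∑ l, C (w (Sum.inr (k, l))) * X l)
      (fun k => IsHomogeneous.sum _ _ _ fun l _ => isHomogeneous_C_mul_X _ _) h3
    intro c
    rcases c with T | ⟨k, l⟩
    · exact h2 T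
    · have h5 := congrArg (coeff (Finsupp.single l 1)) (h4 k)
      simp only [coeff_sum, coeff_C_mul, coeff_zero] at h5
      rw [Finset.sum_eq_single l] at h5
      · simpa using h5
      · intro l' _ hl'
        rw [coeff_X, if_neg, mul_zero]
        intro h
        exact hl' (Finsupp.single_left_injective one_ne_zero h)
      · simp
  · intro j
    have h1 : fam g (Fin.natAdd a j) = X (Fin.natAdd a j) ^ 3 -
        ∑ T : Tri3 a, g j T • mon a b T.1 := by
      simp [fam, fdeg, fG]
    have h2 := hb2 (fam g (Fin.natAdd a j)) _ (fam_homog g _) (Ideal.subset_span ⟨_, rfl⟩)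
    have h3 : (aeval bb (fam g (Fin.natAdd a j)) : MvPolynomial (Fin N) F).IsHomogeneous 3 := by
      have := (fam_homog g (Fin.natAdd a j)).aeval (g := bb) (n := 1) hb1
      simpa [fdeg] using this
    obtain ⟨w, hw⟩ := cubic_mem hq h3 h2
    refine ⟨w, ?_⟩
    simp only [Sum.elim_inl, Sum.elim_inr, map_mul, map_X, hp1, hmon, map_pow, hp2]
    rw [← hw, h1, map_sub, map_pow, aeval_X, map_sum]
    simp only [map_smul]
    ring

end H503R3.QCI
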