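import Mathlib

namespace H503R3.QCI

open MvPolynomial

universe u

variable {F : Type u} [Field F]

/-- `h` lies in the ideal `I` as soon as `f * h` does. -/
def NZD {σ : Type} (I : Ideal (MvPolynomial σ F)) (f : MvPolynomial σ F) : Prop :=
  ∀ h, f * h ∈ I → h ∈ I

/-- A sequence is regular (ideal-theoretic form). -/
def Reg {n m : ℕ} (f : Fin m → MvPolynomial (Fin n) F) : Prop :=
  ∀ i, NZD (Ideal.span (f '' {j | j < i})) (f i)

lemma reg_of_isWeaklyRegular {n m : ℕ} {f : Fin m → MvPolynomial (Fin n) F}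
    (h : RingTheory.Sequence.IsWeaklyRegular (MvPolynomial (Fin n) F) (List.ofFn f)) : Reg f := by
  intro i
  have h1 := h.regular_mod_prev i.1 (by simp)
  rw [isSMulRegular_quotient_iff_mem_of_smul_mem] at h1
  have h2 : (Ideal.ofList ((List.ofFn f).take i.1) • ⊤ :
      Submodule (MvPolynomial (Fin n) F) (MvPolynomial (Fin n) F)) =
      Ideal.span (f '' {j | j < i}) := by
    rw [smul_eq_mul, Ideal.mul_top, Ideal.ofList]
    congr 1
    ext x
    simp only [Set.mem_ofPred_eq, Set.mem_image, List.mem_take_iff_getElem, List.getElem_ofFn,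
      List.length_ofFn]
    constructor
    · rintro ⟨j, hj, rfl⟩
      exact ⟨⟨j, by omega⟩, Fin.lt_def.mpr (by simp; omega), rfl⟩
    · rintro ⟨j, hj, rfl⟩
      exact ⟨j.1, by have := Fin.lt_def.mp hj; have := i.2; omega, rfl⟩
  rw [h2] at h1
  intro x hx
  have h3 : (List.ofFn f)[i.1]'(by simp) = f i := by simp
  rw [h3] at h1
  exact h1 x hx

lemma isWeaklyRegular_of_reg {n m : ℕ} {f : Fin m → MvPolynomial (Fin n) F}
    (h : Reg f) : RingTheory.Sequence.IsWeaklyRegular (MvPolynomial (Fin n) F) (List.ofFn f) := by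
  constructor
  intro i hi
  have hi' : i < m := by simpa using hi
  rw [isSMulRegular_quotient_iff_mem_of_smul_mem]
  have h2 : (Ideal.ofList ((List.ofFn f).take i) • ⊤ :
      Submodule (MvPolynomial (Fin n) F) (MvPolynomial (Fin n) F)) =
      Ideal.span (f '' {j | j < (⟨i, hi'⟩ : Fin m)}) := by
    rw [smul_eq_mul, Ideal.mul_top, Ideal.ofList]
    congr 1
    ext x
    simp only [Set.mem_ofPred_eq, Set.mem_image, List.mem_take_iff_getElem, List.getElem_ofFn,
      List.length_ofFn]
    constructor
    · rintro ⟨j, hj, rfl⟩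
      exact ⟨⟨j, by omega⟩, Fin.lt_def.mpr (by simp; omega), rfl⟩
    · rintro ⟨j, hj, rfl⟩
      exact ⟨j.1, by have := Fin.lt_def.mp hj; simp only at this; omega, rfl⟩
  rw [h2]
  have h3 : (List.ofFn f)[i] = f ⟨i, hi'⟩ := by simp
  rw [h3]
  intro x hx
  exact h ⟨i, hi'⟩ x hx

/-- An ideal closed under homogeneous components. -/
def Homog {σ : Type} (I : Ideal (MvPolynomial σ F)) : Prop :=
  ∀ p ∈ I, ∀ k, homogeneousComponent k p ∈ I

lemma comp_mul_of_lt {σ : Type} {f v : MvPolynomial σ F} {e j : ℕ} (hf : f.IsHomogeneous e)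
    (hj : j < e) : homogeneousComponent j (f * v) = 0 := by
  conv_lhs => rw [← sum_homogeneousComponent v, Finset.mul_sum, map_sum]
  refine Finset.sum_eq_zero fun i _ => ?_
  rw [homogeneousComponent_of_mem (hf.mul (homogeneousComponent_isHomogeneous i v))]
  rw [if_neg (by omega)]

lemma comp_mul {σ : Type} {f v : MvPolynomial σ F} {e k : ℕ} (hf : f.IsHomogeneous e) :
    homogeneousComponent (e + k) (f * v) = f * homogeneousComponent k v := by
  conv_lhs => rw [← sum_homogeneousComponent v, Finset.mul_sum, map_sum]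
  have h1 : ∀ i ∈ Finset.range (v.totalDegree + 1),
      homogeneousComponent (e + k) (f * homogeneousComponent i v) =
      if i = k then f * homogeneousComponent k v else 0 := by
    intro i _
    rw [homogeneousComponent_of_mem (hf.mul (homogeneousComponent_isHomogeneous i v))]
    by_cases h : i = k
    · subst h; simp
    · rw [if_neg (by omega), if_neg h]
  rw [Finset.sum_congr rfl h1, Finset.sum_ite_eq']
  split_ifs with h
  · rfl
  · rw [homogeneousComponent_eq_zero k v (by simpa using h), mul_zero]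

lemma homog_span {σ : Type} {s : Set (MvPolynomial σ F)}
    (h : ∀ x ∈ s, ∃ e, x.IsHomogeneous e) : Homog (Ideal.span s) := by
  intro p hp
  induction hp using Submodule.span_induction with
  | mem x hx =>
    intro k
    obtain ⟨e, he⟩ := h x hx
    rw [homogeneousComponent_of_mem he]
    split_ifs
    · exact Ideal.subset_span hx
    · exact zero_mem _
  | zero => intro k; rw [map_zero]; exact zero_mem _
  | add x y _ _ hx hy => intro k; rw [map_add]; exact add_mem (hx k) (hy k)
  | smul a x hx0 hx =>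
    intro k
    -- expand x into components
    have hx' : x = ∑ i ∈ Finset.range (x.totalDegree + 1), homogeneousComponent i x :=
      (sum_homogeneousComponent x).symm
    rw [smul_eq_mul, mul_comm a x, hx', Finset.sum_mul, map_sum]
    refine sum_mem fun i _ => ?_
    by_cases hk : k < i
    · rw [comp_mul_of_lt (homogeneousComponent_isHomogeneous i x) hk]; exact zero_mem _
    · obtain ⟨l, rfl⟩ := Nat.exists_eq_add_of_le (not_lt.mp hk)
      rw [comp_mul (homogeneousComponent_isHomogeneous i x)]
      exact Ideal.mul_mem_right _ _ (hx i)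

/-- The degree `j` part of an ideal. -/
noncomputable def gr {σ : Type} (I : Ideal (MvPolynomial σ F)) (j : ℕ) :
    Submodule F (MvPolynomial σ F) :=
  I.restrictScalars F ⊓ homogeneousSubmodule σ F j

lemma mem_gr {σ : Type} {I : Ideal (MvPolynomial σ F)} {j : ℕ} {x : MvPolynomial σ F} :
    x ∈ gr I j ↔ x ∈ I ∧ x.IsHomogeneous j := Iff.rfl

instance {σ : Type} [Finite σ] (j : ℕ) : FiniteDimensional F (homogeneousSubmodule σ F j) :=
  Module.Finite.iff_fg.mpr (homogeneousSubmodule_fg _ _ j)

instance {σ : Type} [Finite σ] (I : Ideal (MvPolynomial σ F)) (j : ℕ) :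
    FiniteDimensional F (gr I j) :=
  Submodule.finiteDimensional_of_le inf_le_right

lemma finrank_map_of_inj {V W : Type*} [AddCommGroup V] [Module F V] [AddCommGroup W]
    [Module F W] (f : V →ₗ[F] W) (hf : Function.Injective f) (p : Submodule F V) :
    Module.finrank F (p.map f) = Module.finrank F p :=
  (Submodule.equivMapOfInjective f hf p).finrank_eq.symm

variable {σ : Type}

lemma gr_low {I : Ideal (MvPolynomial σ F)} (hI : Homog I) {f : MvPolynomial σ F} {e j : ℕ}
    (hf : f.IsHomogeneous e) (hj : j < e) : gr (I ⊔ Ideal.span {f}) j = gr I j := by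
  apply le_antisymm
  · intro x hx
    obtain ⟨h1, h2⟩ := mem_gr.mp hx
    refine mem_gr.mpr ⟨?_, h2⟩
    obtain ⟨u, hu, v, hv, rfl⟩ := Submodule.mem_sup.mp h1
    obtain ⟨a, rfl⟩ := Ideal.mem_span_singleton'.mp hv
    have h3 := homogeneousComponent_eq_self h2
    rw [map_add, mul_comm, comp_mul_of_lt hf hj, add_zero, mul_comm] at h3
    rw [← h3]
    exact hI u hu j
  · intro x hx
    obtain ⟨h1, h2⟩ := mem_gr.mp hx
    exact mem_gr.mpr ⟨Ideal.mem_sup_left h1, h2⟩

lemma gr_high {I : Ideal (MvPolynomial σ F)} (hI : Homog I) {f : MvPolynomial σ F} {e k : ℕ}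
    (hf : f.IsHomogeneous e) : gr (I ⊔ Ideal.span {f}) (e + k) = gr I (e + k) ⊔
      (homogeneousSubmodule σ F k).map (LinearMap.mulLeft F f) := by
  apply le_antisymm
  · intro x hx
    obtain ⟨h1, h2⟩ := mem_gr.mp hx
    obtain ⟨u, hu, v, hv, rfl⟩ := Submodule.mem_sup.mp h1
    obtain ⟨a, rfl⟩ := Ideal.mem_span_singleton'.mp hv
    have h3 := homogeneousComponent_eq_self h2
    rw [map_add, mul_comm a f, comp_mul hf] at h3
    rw [mul_comm a f, ← h3]
    refine Submodule.add_mem_sup ?_ ?_
    · exact mem_gr.mpr ⟨hI u hu _, homogeneousComponent_isHomogeneous _ _⟩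
    · exact ⟨_, homogeneousComponent_isHomogeneous k a, rfl⟩
  · apply sup_le
    · intro x hx
      obtain ⟨h1, h2⟩ := mem_gr.mp hx
      exact mem_gr.mpr ⟨Ideal.mem_sup_left h1, h2⟩
    · rintro _ ⟨a, ha, rfl⟩
      refine mem_gr.mpr ⟨?_, hf.mul ha⟩
      exact Ideal.mem_sup_right (Ideal.mul_mem_right _ _ (Ideal.mem_span_singleton_self f))

lemma gr_dim [Finite σ] {I : Ideal (MvPolynomial σ F)} (hI : Homog I) {f : MvPolynomial σ F} {e k : ℕ}
    (hf : f.IsHomogeneous e) (hn : NZD I f) :
    Module.finrank F (gr (I ⊔ Ideal.span {f}) (e + k)) + Module.finrank F (gr I k) =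
      Module.finrank F (gr I (e + k)) + Module.finrank F (homogeneousSubmodule σ F k) := by
  by_cases hf0 : f = 0
  · have hI' : I = ⊤ := by
      rw [Ideal.eq_top_iff_one]
      exact hn 1 (by rw [hf0, zero_mul]; exact zero_mem _)
    subst hI'
    have h1 : ∀ j, gr (⊤ : Ideal (MvPolynomial σ F)) j = homogeneousSubmodule σ F j := by
      intro j
      ext x
      rw [mem_gr]
      simp
    rw [top_sup_eq, h1, h1]
  · rw [gr_high hI hf]
    have hinj : Function.Injective (LinearMap.mulLeft F f) := by
      intro a b hab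
      exact mul_left_cancel₀ hf0 hab
    have h1 : gr I (e + k) ⊓ (homogeneousSubmodule σ F k).map (LinearMap.mulLeft F f) =
        (gr I k).map (LinearMap.mulLeft F f) := by
      ext x
      constructor
      · rintro ⟨hx, a, ha, rfl⟩
        exact ⟨a, mem_gr.mpr ⟨hn a (mem_gr.mp hx).1, ha⟩, rfl⟩
      · rintro ⟨a, ha, rfl⟩
        obtain ⟨h1, h2⟩ := mem_gr.mp ha
        exact ⟨mem_gr.mpr ⟨Ideal.mul_mem_left _ _ h1, hf.mul h2⟩, a, h2, rfl⟩
    have h2 := Submodule.finrank_sup_add_finrank_inf_eq (gr I (e + k))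
      ((homogeneousSubmodule σ F k).map (LinearMap.mulLeft F f))
    rw [h1, finrank_map_of_inj _ hinj, finrank_map_of_inj _ hinj] at h2
    exact h2

/-- The Hilbert series of the quotient by an ideal. -/
noncomputable def HS (I : Ideal (MvPolynomial σ F)) : PowerSeries ℤ :=
  PowerSeries.mk fun j =>
    (Module.finrank F (homogeneousSubmodule σ F j) : ℤ) - Module.finrank F (gr I j)

lemma HS_step [Finite σ] {I : Ideal (MvPolynomial σ F)} (hI : Homog I) {f : MvPolynomial σ F}
    {e : ℕ} (hf : f.IsHomogeneous e) (hn : NZD I f) :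
    HS (I ⊔ Ideal.span {f}) = (1 - PowerSeries.X ^ e) * HS I := by
  ext j
  rw [sub_mul, one_mul, map_sub, PowerSeries.coeff_X_pow_mul']
  simp only [HS, PowerSeries.coeff_mk]
  split_ifs with h
  · obtain ⟨k, rfl⟩ := Nat.exists_eq_add_of_le h
    have := gr_dim (k := k) hI hf hn
    rw [Nat.add_sub_cancel_left]
    omega
  · rw [gr_low hI hf (by omega), sub_zero]

lemma homog_bot : Homog (⊥ : Ideal (MvPolynomial σ F)) := by
  intro p hp k
  rw [Ideal.mem_bot] at hp
  rw [hp, map_zero]
  exact zero_mem _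

lemma HS_seq {n m : ℕ} (f : Fin m → MvPolynomial (Fin n) F) (e : Fin m → ℕ)
    (hf : ∀ i, (f i).IsHomogeneous (e i)) (hreg : Reg f) :
    HS (Ideal.span (Set.range f)) = (∏ i, (1 - PowerSeries.X ^ e i)) *
      HS (⊥ : Ideal (MvPolynomial (Fin n) F)) := by
  have key : ∀ k, k ≤ m → HS (Ideal.span (f '' {j | j.1 < k})) =
      (∏ i ∈ Finset.univ.filter (fun i : Fin m => i.1 < k), (1 - PowerSeries.X ^ e i)) *
      HS (⊥ : Ideal (MvPolynomial (Fin n) F)) := by
    intro k
    induction k with
    | zero =>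
      intro _
      simp
    | succ k ih =>
      intro hk
      have h1 : Ideal.span (f '' {j | j.1 < k + 1}) =
          Ideal.span (f '' {j | j < (⟨k, hk⟩ : Fin m)}) ⊔ Ideal.span {f ⟨k, hk⟩} := by
        rw [← Ideal.span_union]
        congr 1
        ext x
        simp only [Set.mem_image, Set.mem_ofPred_eq, Set.union_singleton, Set.mem_insert_iff]
        constructor
        · rintro ⟨j, hj, rfl⟩
          by_cases h : j.1 = k
          · left; congr 1; exact Fin.ext h
          · right; exact ⟨j, Fin.lt_def.mpr (by simp only; omega), rfl⟩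
        · rintro (rfl | ⟨j, hj, rfl⟩)
          · exact ⟨⟨k, hk⟩, by simp, rfl⟩
          · exact ⟨j, by have := Fin.lt_def.mp hj; simp only at this; omega, rfl⟩
      have h2 : f '' {j | j < (⟨k, hk⟩ : Fin m)} = f '' {j | j.1 < k} := rfl
      have h3 : (Finset.univ.filter (fun i : Fin m => i.1 < k + 1)) =
          insert (⟨k, hk⟩ : Fin m) (Finset.univ.filter (fun i : Fin m => i.1 < k)) := by
        ext x
        simp only [Finset.mem_filter, Finset.mem_univ, true_and, Finset.mem_insert, Fin.ext_iff]
        omega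
      rw [h1, HS_step (homog_span ?_) (hf ⟨k, hk⟩) (hreg ⟨k, hk⟩), h2, ih (by omega), h3,
        Finset.prod_insert (by simp), mul_assoc]
      rintro _ ⟨j, _, rfl⟩
      exact ⟨_, hf j⟩
  have h1 := key m le_rfl
  have h2 : f '' {j | j.1 < m} = Set.range f := by
    rw [← Set.image_univ]
    congr 1
    ext x
    simp
  have h3 : (Finset.univ.filter (fun i : Fin m => i.1 < m)) = Finset.univ := by
    ext x; simp
  rw [h2, h3] at h1
  exact h1

lemma reg_X {n : ℕ} : Reg (fun i : Fin n => (X i : MvPolynomial (Fin n) F)) := by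
  intro i h hh
  rw [show (fun i : Fin n => (X i : MvPolynomial (Fin n) F)) '' {j | j < i} =
    X '' {j | j < i} from rfl] at hh ⊢
  rw [mem_ideal_span_X_image] at hh ⊢
  intro m hm
  have h1 : Finsupp.single i 1 + m ∈ (X i * h).support := by
    rw [mem_support_iff, coeff_X_mul]
    exact mem_support_iff.mp hm
  obtain ⟨j, hj, hj2⟩ := hh _ h1
  refine ⟨j, hj, ?_⟩
  have hne : i ≠ j := fun h => by subst h; exact lt_irrefl i hj
  rwa [Finsupp.add_apply, Finsupp.single_eq_of_ne hne.symm, zero_add] at hj2

lemma HS_X {n : ℕ} : HS (Ideal.span (Set.range (fun i : Fin n => (X i : MvPolynomial (Fin n) F))))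
    = 1 := by
  ext j
  rw [PowerSeries.coeff_one, HS, PowerSeries.coeff_mk]
  have hr : Set.range (fun i : Fin n => (X i : MvPolynomial (Fin n) F)) = X '' Set.univ := by
    simp [Set.image_univ]
  split_ifs with h
  · subst h
    have h1 : gr (Ideal.span (Set.range (fun i : Fin n => (X i : MvPolynomial (Fin n) F)))) 0 =
        ⊥ := by
      rw [eq_bot_iff]
      intro x hx
      obtain ⟨h1, h2⟩ := mem_gr.mp hx
      rw [hr, mem_ideal_span_X_image] at h1
      rw [Submodule.mem_bot]
      by_contra hx0
      obtain ⟨m, hm⟩ := support_nonempty.mpr hx0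
      obtain ⟨i, _, hi⟩ := h1 m hm
      have h3 : m.degree = 0 := by
        by_contra hc
        exact (mem_support_iff.mp hm) (h2.coeff_eq_zero hc)
      have := (Finsupp.degree_eq_zero_iff m).mp h3
      rw [this] at hi
      exact hi rfl
    have h2 : Module.finrank F (homogeneousSubmodule (Fin n) F 0) = 1 := by
      rw [homogeneousSubmodule_zero]
      rw [Submodule.one_eq_span]
      exact finrank_span_singleton one_ne_zero
    rw [h1, h2]
    simp
  · have h1 : gr (Ideal.span (Set.range (fun i : Fin n => (X i : MvPolynomial (Fin n) F)))) j =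
        homogeneousSubmodule (Fin n) F j := by
      apply le_antisymm inf_le_right
      intro x hx
      refine mem_gr.mpr ⟨?_, hx⟩
      rw [hr, mem_ideal_span_X_image]
      intro m hm
      by_contra hcon
      push Not at hcon
      have hm0 : m = 0 := by
        ext i
        exact hcon i (Set.mem_univ i)
      have hx' : x.IsHomogeneous j := hx
      have h3 : m.degree = j := by
        by_contra hc
        exact (mem_support_iff.mp hm) (hx'.coeff_eq_zero hc)
      rw [hm0] at h3
      simp at h3
      exact h h3.symm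
    rw [h1, sub_self]

/-- The polynomial with coefficients the Hilbert function of a complete intersection. -/
noncomputable def cip {m : ℕ} (e : Fin m → ℕ) : Polynomial ℤ :=
  ∏ i, ∑ k ∈ Finset.range (e i), Polynomial.X ^ k

lemma HS_ci {n : ℕ} (f : Fin n → MvPolynomial (Fin n) F) (e : Fin n → ℕ)
    (hf : ∀ i, (f i).IsHomogeneous (e i)) (hreg : Reg f) :
    HS (Ideal.span (Set.range f)) = (cip e : PowerSeries ℤ) := by
  have h1 := HS_seq f e hf hreg
  have h2 := HS_seq (fun i : Fin n => (X i : MvPolynomial (Fin n) F)) (fun _ => 1)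
    (fun i => isHomogeneous_X F i) reg_X
  rw [HS_X] at h2
  have h3 : ∀ i, (1 - PowerSeries.X ^ e i : PowerSeries ℤ) =
      (1 - PowerSeries.X ^ 1) * ∑ k ∈ Finset.range (e i), PowerSeries.X ^ k := by
    intro i
    rw [pow_one, mul_comm, ← geom_sum_mul_neg]
  have h4 : (cip e : PowerSeries ℤ) = ∏ i, ∑ k ∈ Finset.range (e i), PowerSeries.X ^ k := by
    have : (cip e : PowerSeries ℤ) = Polynomial.coeToPowerSeries.ringHom (cip e) := rfl
    rw [this, cip, map_prod]
    refine Finset.prod_congr rfl fun i _ => ?_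
    rw [map_sum]
    refine Finset.sum_congr rfl fun k _ => ?_
    simp
  rw [h1, Finset.prod_congr rfl (fun i _ => h3 i), Finset.prod_mul_distrib, h4]
  have h5 : (∏ _i : Fin n, (1 - PowerSeries.X ^ 1 : PowerSeries ℤ)) *
      (∏ i, ∑ k ∈ Finset.range (e i), PowerSeries.X ^ k) *
        HS (⊥ : Ideal (MvPolynomial (Fin n) F)) =
      (∏ i, ∑ k ∈ Finset.range (e i), PowerSeries.X ^ k) *
        ((∏ _i : Fin n, (1 - PowerSeries.X ^ 1 : PowerSeries ℤ)) *
          HS (⊥ : Ideal (MvPolynomial (Fin n) F))) := by ring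
  rw [h5, ← h2, mul_one]

/-- `d` is the largest degree in which the quotient by `I` does not vanish. -/
def IsSocleDegree {n : ℕ} (I : Ideal (MvPolynomial (Fin n) F)) (d : ℕ) : Prop :=
  (∃ h : MvPolynomial (Fin n) F, h.IsHomogeneous d ∧ h ∉ I) ∧
    ∀ j, d < j → ∀ h : MvPolynomial (Fin n) F, h.IsHomogeneous j → h ∈ I

lemma IsSocleDegree.unique {n : ℕ} {I : Ideal (MvPolynomial (Fin n) F)} {d d' : ℕ}
    (h : IsSocleDegree I d) (h' : IsSocleDegree I d') : d = d' := by
  obtain ⟨⟨x, hx, hxI⟩, h2⟩ := h
  obtain ⟨⟨y, hy, hyI⟩, h4⟩ := h'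
  rcases lt_trichotomy d d' with h | h | h
  · exact absurd (h2 _ h y hy) hyI
  · exact h
  · exact absurd (h4 _ h x hx) hxI

lemma isSocleDegree_ci {n : ℕ} (f : Fin n → MvPolynomial (Fin n) F) (e : Fin n → ℕ)
    (hf : ∀ i, (f i).IsHomogeneous (e i)) (he : ∀ i, 1 ≤ e i) (hreg : Reg f) :
    IsSocleDegree (Ideal.span (Set.range f)) (∑ i, (e i - 1)) := by
  have hHS := HS_ci f e hf hreg
  have hmon1 : ∀ k : ℕ, (∑ j ∈ Finset.range (k + 1), (Polynomial.X : Polynomial ℤ) ^ j).Monic ∧
      (∑ j ∈ Finset.range (k + 1), (Polynomial.X : Polynomial ℤ) ^ j).natDegree = k := by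
    intro k
    constructor
    · exact Polynomial.Monic.geom_sum' Polynomial.monic_X
        (by rw [Polynomial.degree_X]; exact one_pos) k.succ_ne_zero
    · induction k with
      | zero => simp
      | succ k ih =>
        rw [Finset.sum_range_succ, Polynomial.natDegree_add_eq_right_of_natDegree_lt,
          Polynomial.natDegree_X_pow]
        rw [ih, Polynomial.natDegree_X_pow]
        exact Nat.lt_succ_self k
  have hmon : ∀ i, (∑ k ∈ Finset.range (e i), (Polynomial.X : Polynomial ℤ) ^ k).Monic := by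
    intro i
    have := (hmon1 (e i - 1)).1
    rwa [Nat.sub_add_cancel (he i)] at this
  have hdeg : (cip e).natDegree = ∑ i, (e i - 1) := by
    rw [cip, Polynomial.natDegree_prod_of_monic _ _ (fun i _ => hmon i)]
    refine Finset.sum_congr rfl fun i _ => ?_
    have := (hmon1 (e i - 1)).2
    rwa [Nat.sub_add_cancel (he i)] at this
  have hcm : (cip e).Monic := Polynomial.monic_prod_of_monic _ _ (fun i _ => hmon i)
  constructor
  · by_contra hcon
    push Not at hcon
    have h1 : gr (Ideal.span (Set.range f)) (∑ i, (e i - 1)) =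
        homogeneousSubmodule (Fin n) F (∑ i, (e i - 1)) :=
      le_antisymm inf_le_right fun x hx => mem_gr.mpr ⟨hcon x hx, hx⟩
    have h2 := congrArg (PowerSeries.coeff (∑ i, (e i - 1))) hHS
    rw [HS, PowerSeries.coeff_mk, h1, sub_self, Polynomial.coeff_coe, ← hdeg] at h2
    have h3 := hcm.coeff_natDegree
    rw [← h2] at h3
    exact zero_ne_one h3
  · intro j hj h hh
    have h2 := congrArg (PowerSeries.coeff j) hHS
    rw [HS, PowerSeries.coeff_mk, Polynomial.coeff_coe,
      Polynomial.coeff_eq_zero_of_natDegree_lt (by rw [hdeg]; exact hj)] at h2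
    have h3 : gr (Ideal.span (Set.range f)) j = homogeneousSubmodule (Fin n) F j :=
      Submodule.eq_of_le_of_finrank_eq inf_le_right (by omega)
    have h4 : h ∈ gr (Ideal.span (Set.range f)) j := by rw [h3]; exact hh
    exact (mem_gr.mp h4).1

/-- No linear syzygies between the members of a regular sequence of quadrics. -/
lemma no_linear_syz {n m : ℕ} (q : Fin m → MvPolynomial (Fin n) F)
    (hq : ∀ i, (q i).IsHomogeneous 2) (hreg : Reg q) (L : Fin m → MvPolynomial (Fin n) F)
    (hL : ∀ i, (L i).IsHomogeneous 1) (h0 : ∑ i, L i * q i = 0) : ∀ i, L i = 0 := by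
  classical
  by_contra hcon
  push Not at hcon
  let T := Finset.univ.filter (fun i => L i ≠ 0)
  have hT : T.Nonempty := by
    obtain ⟨i, hi⟩ := hcon
    exact ⟨i, by simp [T, hi]⟩
  let i := T.max' hT
  have hi : L i ≠ 0 := by
    have := T.max'_mem hT
    simpa [T] using this
  have hmax : ∀ j, i < j → L j = 0 := by
    intro j hj
    by_contra h
    have : j ≤ i := T.le_max' j (by simp [T, h])
    exact absurd hj (not_lt.mpr this)
  have h1 : q i * L i ∈ Ideal.span (q '' {j | j < i}) := by
    have h2 : q i * L i = - ∑ j ∈ Finset.univ.erase i, L j * q j := by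
      have := Finset.add_sum_erase Finset.univ (fun j => L j * q j) (Finset.mem_univ i)
      rw [h0] at this
      linear_combination this
    rw [h2]
    refine neg_mem (sum_mem fun j hj => ?_)
    rcases lt_trichotomy j i with h | h | h
    · exact Ideal.mul_mem_left _ _ (Ideal.subset_span ⟨j, h, rfl⟩)
    · exact absurd h (Finset.ne_of_mem_erase hj)
    · rw [hmax j h, zero_mul]; exact zero_mem _
  have h2 := hreg i _ h1
  have h3 : ∀ x ∈ Ideal.span (q '' {j | j < i}), ∀ k, k < 2 → homogeneousComponent k x = 0 := by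
    intro x hx
    induction hx using Submodule.span_induction with
    | mem x hx =>
      obtain ⟨j, _, rfl⟩ := hx
      intro k hk
      rw [homogeneousComponent_of_mem (hq j), if_neg (by omega)]
    | zero => intro k _; rw [map_zero]
    | add x y _ _ hx hy => intro k hk; rw [map_add, hx k hk, hy k hk, add_zero]
    | smul a x hx0 hx =>
      intro k hk
      rw [smul_eq_mul, mul_comm, ← sum_homogeneousComponent x, Finset.sum_mul, map_sum]
      refine Finset.sum_eq_zero fun l _ => ?_
      by_cases hl : l < 2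
      · rw [hx l hl, zero_mul, map_zero]
      · exact comp_mul_of_lt (homogeneousComponent_isHomogeneous l x) (by omega)
  have h4 := h3 _ h2 1 (by norm_num)
  rw [homogeneousComponent_eq_self (hL i)] at h4
  exact hi h4

end H503R3.QCI
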