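import Pool.Agent.H503R3.QCI.Hilb

namespace H503R3.QCI

open MvPolynomial

universe u

variable {F : Type u} [Field F] {σ : Type} [DecidableEq σ]

/-- Polynomials as polynomials in one of the variables. -/
noncomputable def psi (k : σ) :
    MvPolynomial σ F ≃ₐ[F] Polynomial (MvPolynomial {j : σ // j ≠ k} F) :=
  (renameEquiv F (Equiv.optionSubtypeNe k).symm).trans (optionEquivLeft F {j : σ // j ≠ k})

lemma psi_X_self (k : σ) : psi (F := F) k (X k) = Polynomial.X := by
  simp [psi]

lemma psi_X_ne (k j : σ) (h : j ≠ k) : psi (F := F) k (X j) = Polynomial.C (X ⟨j, h⟩) := by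
  simp [psi, Equiv.optionSubtypeNe_symm_of_ne h]

lemma psi_supported (k : σ) {p : MvPolynomial σ F} (hp : p ∈ supported F ({k}ᶜ : Set σ)) :
    ∃ p' : MvPolynomial {j : σ // j ≠ k} F, psi k p = Polynomial.C p' := by
  have h1 : supported F ({k}ᶜ : Set σ) ≤
      ((Polynomial.CAlgHom (R := F) (A := MvPolynomial {j : σ // j ≠ k} F)).range).comap
        ((psi (F := F) k : MvPolynomial σ F →ₐ[F] _)) := by
    rw [supported_eq_adjoin_X, Algebra.adjoin_le_iff]
    rintro _ ⟨j, hj, rfl⟩
    exact ⟨X ⟨j, hj⟩, (psi_X_ne k j hj).symm⟩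
  obtain ⟨p', hp'⟩ := h1 hp
  exact ⟨p', hp'.symm⟩

/-- The contraction of an ideal to polynomials without the variable `k`. -/
noncomputable def con (k : σ) (I : Ideal (MvPolynomial σ F)) :
    Ideal (MvPolynomial {j : σ // j ≠ k} F) :=
  I.comap (((psi (F := F) k).symm : _ →+* MvPolynomial σ F).comp Polynomial.C)

lemma mem_con {k : σ} {I : Ideal (MvPolynomial σ F)} {p : MvPolynomial {j : σ // j ≠ k} F} :
    p ∈ con k I ↔ (psi (F := F) k).symm (Polynomial.C p) ∈ I := Iff.rfl

lemma mem_iff_map {k : σ} {s : Set (MvPolynomial σ F)}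
    (hs : ∀ x ∈ s, x ∈ supported F ({k}ᶜ : Set σ)) (h : MvPolynomial σ F) :
    h ∈ Ideal.span s ↔ psi k h ∈ Ideal.map Polynomial.C (con k (Ideal.span s)) := by
  constructor
  · intro hh
    have h1 : Ideal.span s ≤ (Ideal.map Polynomial.C (con k (Ideal.span s))).comap
        ((psi (F := F) k : MvPolynomial σ F →+* _)) := by
      rw [Ideal.span_le]
      intro x hx
      obtain ⟨x', hx'⟩ := psi_supported k (hs x hx)
      change psi k x ∈ Ideal.map Polynomial.C (con k (Ideal.span s))
      rw [hx']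
      apply Ideal.mem_map_of_mem
      rw [mem_con, ← hx', AlgEquiv.symm_apply_apply]
      exact Ideal.subset_span hx
    exact h1 hh
  · intro hh
    have h1 : Ideal.map Polynomial.C (con k (Ideal.span s)) ≤ (Ideal.span s).comap
        ((psi (F := F) k).symm : _ →+* MvPolynomial σ F) := by
      rw [Ideal.map_le_iff_le_comap]
      intro x hx
      exact hx
    have h2 : (psi (F := F) k).symm (psi k h) ∈ Ideal.span s := h1 hh
    rwa [AlgEquiv.symm_apply_apply] at h2

lemma mem_map_C_iff_map {R : Type*} [CommRing R] (J : Ideal R) (p : Polynomial R) :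
    p ∈ Ideal.map Polynomial.C J ↔ p.map (Ideal.Quotient.mk J) = 0 := by
  rw [Ideal.mem_map_C_iff, Polynomial.ext_iff]
  simp [Polynomial.coeff_map, Ideal.Quotient.eq_zero_iff_mem]

lemma dvd_of_mul_eq' {R : Type*} [CommRing R] {a b c : Polynomial R} (h : a * b = c) : b ∣ c :=
  ⟨a, by rw [← h, mul_comm]⟩

lemma monic_nzd {k : σ} {s : Set (MvPolynomial σ F)}
    (hs : ∀ x ∈ s, x ∈ supported F ({k}ᶜ : Set σ)) {e : ℕ} (he : 1 ≤ e) {G : MvPolynomial σ F}
    (hG : G ∈ supported F ({k}ᶜ : Set σ)) : NZD (Ideal.span s) (X k ^ e - G) := by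
  intro h hh
  obtain ⟨G', hG'⟩ := psi_supported k hG
  rw [mem_iff_map hs, mem_map_C_iff_map] at hh ⊢
  rw [map_mul, map_sub, map_pow, psi_X_self, hG', Polynomial.map_mul, Polynomial.map_sub,
    Polynomial.map_pow, Polynomial.map_X, Polynomial.map_C] at hh
  have hm := Polynomial.monic_X_pow_sub_C
    (Ideal.Quotient.mk (con k (Ideal.span s)) G') (by omega : e ≠ 0)
  exact hm.mul_right_eq_zero_iff.mp hh

lemma monic_notMem {k : σ} {s : Set (MvPolynomial σ F)}
    (hs : ∀ x ∈ s, x ∈ supported F ({k}ᶜ : Set σ)) {e : ℕ} (he : 1 ≤ e) {G w : MvPolynomial σ F}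
    (hG : G ∈ supported F ({k}ᶜ : Set σ)) (hw : w ∈ supported F ({k}ᶜ : Set σ))
    (hwI : w ∉ Ideal.span s) :
    w * X k ^ (e - 1) ∉ Ideal.span s ⊔ Ideal.span {X k ^ e - G} := by
  intro hcon
  obtain ⟨G', hG'⟩ := psi_supported k hG
  obtain ⟨w', hw'⟩ := psi_supported k hw
  obtain ⟨y, hy, z, hz, hyz⟩ := Submodule.mem_sup.mp hcon
  obtain ⟨c, rfl⟩ := Ideal.mem_span_singleton'.mp hz
  rw [mem_iff_map hs, mem_map_C_iff_map] at hy hwI
  have h1 := congrArg (fun t => (psi k t).map (Ideal.Quotient.mk (con k (Ideal.span s)))) hyz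
  simp only [map_add, map_mul, map_sub, map_pow, psi_X_self, hG', hw', Polynomial.map_add,
    Polynomial.map_mul, Polynomial.map_sub, Polynomial.map_pow, Polynomial.map_X,
    Polynomial.map_C] at h1
  rw [hy, zero_add] at h1
  rw [hw', Polynomial.map_C] at hwI
  have hw0 : Ideal.Quotient.mk (con k (Ideal.span s)) w' ≠ 0 := by
    intro h0; exact hwI (by rw [h0, Polynomial.C_0])
  have hnt : Nontrivial (MvPolynomial {j : σ // j ≠ k} F ⧸ con k (Ideal.span s)) :=
    nontrivial_of_ne _ _ hw0
  have hm := Polynomial.monic_X_pow_sub_C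
    (Ideal.Quotient.mk (con k (Ideal.span s)) G') (by omega : e ≠ 0)
  have hdvd : (Polynomial.X ^ e - Polynomial.C (Ideal.Quotient.mk (con k (Ideal.span s)) G')) ∣
      Polynomial.C (Ideal.Quotient.mk (con k (Ideal.span s)) w') * Polynomial.X ^ (e - 1) :=
    dvd_of_mul_eq' h1
  refine hm.not_dvd_of_degree_lt ?_ ?_ hdvd
  · intro h0
    have := congrArg (fun t => Polynomial.coeff t (e - 1)) h0
    simp only [Polynomial.coeff_C_mul, Polynomial.coeff_X_pow_self, mul_one,
      Polynomial.coeff_zero] at this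
    exact hw0 this
  · rw [Polynomial.degree_X_pow_sub_C (by omega)]
    refine lt_of_le_of_lt (Polynomial.degree_C_mul_X_pow_le _ _) ?_
    exact_mod_cast (by omega : e - 1 < e)

omit [DecidableEq σ] in
lemma supported_mono' {s t : Set σ} (h : s ⊆ t) {p : MvPolynomial σ F} (hp : p ∈ supported F s) :
    p ∈ supported F t := supported_mono h hp

section tri

variable {n : ℕ} {f G : Fin n → MvPolynomial (Fin n) F} {e : Fin n → ℕ}

lemma tri_supported (hf : ∀ i, f i = X i ^ e i - G i) (hG : ∀ i, G i ∈ supported F {j | j < i})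
    {i j : Fin n} (h : j < i) : f j ∈ supported F ({i}ᶜ : Set (Fin n)) := by
  rw [hf]
  refine sub_mem (pow_mem ?_ _) ?_
  · rw [X_mem_supported]
    exact (ne_of_lt h)
  · refine supported_mono' ?_ (hG j)
    intro l hl
    exact ne_of_lt (lt_trans hl h)

lemma tri_reg (hf : ∀ i, f i = X i ^ e i - G i) (he : ∀ i, 1 ≤ e i)
    (hG : ∀ i, G i ∈ supported F {j | j < i}) : Reg f := by
  intro i
  rw [hf i]
  apply monic_nzd _ (he i)
  · refine supported_mono' ?_ (hG i)
    intro l hl
    exact ne_of_lt hl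
  · rintro _ ⟨j, hj, rfl⟩
    exact tri_supported hf hG hj

lemma tri_socle (hf : ∀ i, f i = X i ^ e i - G i) (he : ∀ i, 1 ≤ e i)
    (hG : ∀ i, G i ∈ supported F {j | j < i}) :
    ∏ i, (X i : MvPolynomial (Fin n) F) ^ (e i - 1) ∉ Ideal.span (Set.range f) := by
  have key : ∀ k, k ≤ n → ∏ i ∈ Finset.univ.filter (fun i : Fin n => i.1 < k),
      (X i : MvPolynomial (Fin n) F) ^ (e i - 1) ∉ Ideal.span (f '' {j | j.1 < k}) := by
    intro k
    induction k with
    | zero =>
      intro _
      simp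
    | succ k ih =>
      intro hk
      have h1 : Ideal.span (f '' {j | j.1 < k + 1}) =
          Ideal.span (f '' {j | j < (⟨k, hk⟩ : Fin n)}) ⊔ Ideal.span {f ⟨k, hk⟩} := by
        rw [← Ideal.span_union]
        congr 1
        ext x
        simp only [Set.mem_image, Set.mem_ofPred_eq, Set.union_singleton, Set.mem_insert_iff]
        constructor
        · rintro ⟨j, hj, rfl⟩
          by_cases h : j.1 = k
          · left; congr 1; exact Fin.ext h
          · right; exact ⟨j, Fin.lt_def.mpr (by simp only; omega), rfl⟩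
        · rintro (rfl | ⟨j, hj, rfl⟩)
          · exact ⟨⟨k, hk⟩, by simp, rfl⟩
          · exact ⟨j, by have := Fin.lt_def.mp hj; simp only at this; omega, rfl⟩
      have h3 : (Finset.univ.filter (fun i : Fin n => i.1 < k + 1)) =
          insert (⟨k, hk⟩ : Fin n) (Finset.univ.filter (fun i : Fin n => i.1 < k)) := by
        ext x
        simp only [Finset.mem_filter, Finset.mem_univ, true_and, Finset.mem_insert, Fin.ext_iff]
        omega
      rw [h1, h3, Finset.prod_insert (by simp), mul_comm, hf ⟨k, hk⟩]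
      apply monic_notMem _ (he _)
      · refine supported_mono' ?_ (hG _)
        intro l hl
        exact ne_of_lt hl
      · refine prod_mem fun l hl => pow_mem ?_ _
        rw [X_mem_supported]
        have : l.1 < k := by simpa using hl
        intro h
        have h' : l = ⟨k, hk⟩ := h
        rw [h'] at this
        exact lt_irrefl k this
      · exact ih (by omega)
      · rintro _ ⟨j, hj, rfl⟩
        exact tri_supported hf hG hj
  have h1 := key n le_rfl
  have h2 : f '' {j | j.1 < n} = Set.range f := by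
    rw [← Set.image_univ]
    congr 1
    ext x
    simp
  have h3 : (Finset.univ.filter (fun i : Fin n => i.1 < n)) = Finset.univ := by
    ext x; simp
  rw [h2, h3] at h1
  exact h1

end tri

end H503R3.QCI
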